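import Pool.Agent.H910R3.BP.Fin

/-!
# An oracle relative to which `BPP_path` has no complete set

The definitions of oracles, of (deterministic) polynomial-time oracle algorithms and of `FP`
relative to an oracle (`Oracle`, `Alg`, `IsFP`) are those of `Pool.Agent.H620R2.Gauge.Defs`.
Nondeterministic polynomial-time oracle algorithms, their numbers of accepting and rejecting
computation paths, and the class `BPP_path` relative to an oracle (`NAlg`, `NAlg.count`,
`NAlg.acc`, `NAlg.rej`, `IsBPPpath`) are defined in `Pool.Agent.H910R3.BP.Orc`.

The proof. For every algorithm `M` and all `n` the oracle has a region of `2 ^ n` cells; a cell is
empty or holds a needle with a label `0` or `1`. The language `L` of `M` asks which label has the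
large majority in the region of length `|x|`; guessing a cell, and branching further if it holds a
needle, gives a `BPP_path` algorithm for it, provided that one of the labels has a majority of at
least `4 : 1`, or that there are no needles. The main lemma (`Pool.Agent.H910R3.BP.core`) says that
no algorithm whose number of questions is small compared to the number of the cells keeps the
promise for *all* labelled sets of needles and is right for all those with a majority of `4 : 1`.
It is proved by planting needles as long as the expected number of accepting (or rejecting) paths
jumps under one of the product measures of a one-parameter family in which the fraction of the
labels `1` increases from almost `0` to almost `1`. Afterwards the numbers of paths are concentrated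
up to constant factors (second moment method), so that they change by constant factors only from one
parameter to the next one, while the verdict has to flip somewhere.

Teammates proved sixteen lemmas of the project (see `Pool.Agent.H910R3.BP`).
-/

set_option autoImplicit false

namespace Pool.Agent.Results.MP_8ccf0a_lc.NoCompleteOracle

open Pool.Agent.H910R3.BP Pool.Agent.H620R2.Gauge

/-- There is an oracle `A` relative to which no language `K` in `BPP_path` is hard for `BPP_path`:
some language `L` in `BPP_path`, membership in which depends on the length of the string only, is
not many-one reducible to `K`, even by functions computable in polynomial time relative to `A`.
In particular, `BPP_path` has no complete set relative to `A`. -/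
theorem result : ∃ A : Oracle, ∀ K : Set (List Bool), IsBPPpath A K →
    ∃ L : Set (List Bool), IsBPPpath A L ∧
      (∀ x y : List Bool, x.length = y.length → (x ∈ L ↔ y ∈ L)) ∧
      ¬ ∃ F : List Bool → List Bool, IsFP A F ∧ ∀ x, x ∈ L ↔ F x ∈ K :=
  final_len

end Pool.Agent.Results.MP_8ccf0a_lc.NoCompleteOracle
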